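import Mathlib

/-!
# Project MS, job VUN: elementary lemmas
-/

set_option autoImplicit false

namespace Pool.Agent.Q160.MS

open Finset

/-- the product of `(1 - 1 / p)⁻¹` over a finite set of integers `≥ 2` -/
theorem prod_inv_le (R : Finset ℕ) : (∀ x ∈ R, 2 ≤ x) →
    ∏ p ∈ R, (1 - 1 / (p : ℝ))⁻¹ ≤ (R.card : ℝ) + 1 := by
  induction R using Finset.induction_on_max with
  | empty => intro _; simp
  | insert a s hs ih =>
    intro h2
    have ha : a ∉ s := fun h => lt_irrefl _ (hs a h)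
    have hs2 : ∀ x ∈ s, 2 ≤ x := fun x hx => h2 x (mem_insert_of_mem hx)
    have ha2 : 2 ≤ a := h2 a (mem_insert_self _ _)
    have hsub : s ⊆ Ico 2 a := fun x hx => mem_Ico.2 ⟨hs2 x hx, hs x hx⟩
    have hc := card_le_card hsub
    rw [Nat.card_Ico] at hc
    rw [prod_insert ha, card_insert_of_notMem ha]
    have hc' : (s.card : ℝ) + 2 ≤ a := by
      have : s.card + 2 ≤ a := by omega
      exact_mod_cast this
    have hc0 : (0 : ℝ) ≤ s.card := by positivity
    have e : (1 - 1 / (a : ℝ))⁻¹ = (a : ℝ) / (a - 1) := by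
      have h1 : (a : ℝ) ≠ 0 := by linarith
      have h3 : (a : ℝ) - 1 ≠ 0 := by linarith
      field_simp
    have h4 : (a : ℝ) / (a - 1) ≤ ((s.card : ℝ) + 2) / ((s.card : ℝ) + 1) := by
      rw [div_le_div_iff₀ (by linarith) (by linarith)]
      nlinarith
    have h5 : (0 : ℝ) ≤ ∏ p ∈ s, (1 - 1 / (p : ℝ))⁻¹ := by
      apply prod_nonneg
      intro p hp
      have hp2 : (2 : ℝ) ≤ p := by exact_mod_cast hs2 p hp
      have h6 : 1 / (p : ℝ) ≤ 1 / 2 := one_div_le_one_div_of_le (by norm_num) hp2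
      exact inv_nonneg.2 (by linarith)
    rw [e]
    calc (a : ℝ) / (a - 1) * ∏ p ∈ s, (1 - 1 / (p : ℝ))⁻¹
        ≤ ((s.card : ℝ) + 2) / ((s.card : ℝ) + 1) * ((s.card : ℝ) + 1) :=
          mul_le_mul h4 (ih hs2) h5 (by positivity)
      _ = (s.card : ℝ) + 2 := by field_simp
      _ = ((s.card + 1 : ℕ) : ℝ) + 1 := by push_cast; ring

/-- the number of the prime factors -/
theorem card_pf_le {n : ℕ} (hn : n ≠ 0) : (n.primeFactors.card : ℝ) ≤ 2 * Real.log n := by
  have h1 : 2 ^ n.primeFactors.card ≤ n := by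
    calc 2 ^ n.primeFactors.card = ∏ _p ∈ n.primeFactors, 2 := by rw [prod_const]
      _ ≤ ∏ p ∈ n.primeFactors, p :=
          prod_le_prod' fun p hp => (Nat.prime_of_mem_primeFactors hp).two_le
      _ ≤ n := Nat.le_of_dvd (Nat.pos_of_ne_zero hn) (Nat.prod_primeFactors_dvd n)
  have h2 : (2 : ℝ) ^ n.primeFactors.card ≤ n := by exact_mod_cast h1
  have h3 := Real.log_le_log (by positivity) h2
  rw [Real.log_pow] at h3
  have h4 : (1 / 2 : ℝ) ≤ Real.log 2 := by
    have := Real.log_two_gt_d9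
    linarith
  have h5 : (0 : ℝ) ≤ n.primeFactors.card := by positivity
  nlinarith

/-- the number of the primes which divide one of the resultants -/
theorem card_res_le {s : ℕ} (D : Fin s → Fin s → ℤ) (hD : ∀ l m, l ≠ m → D l m ≠ 0) (M : ℝ)
    (hM : 1 ≤ M) (hDM : ∀ l m, |((D l m : ℤ) : ℝ)| ≤ M) (R : Finset ℕ)
    (hR : ∀ p ∈ R, p.Prime ∧ ∃ l m, l ≠ m ∧ (p : ℤ) ∣ D l m) :
    (R.card : ℝ) + 1 ≤ (2 * s ^ 2 + 1) * (Real.log M + 1) := by
  classical
  have hL : 0 ≤ Real.log M := Real.log_nonneg hM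
  have hsub : R ⊆ (univ.filter (fun x : Fin s × Fin s => x.1 ≠ x.2)).biUnion
      (fun x => (D x.1 x.2).natAbs.primeFactors) := by
    intro p hp
    obtain ⟨hpp, l, m, hlm, hd⟩ := hR p hp
    rw [mem_biUnion]
    refine ⟨(l, m), by simp [hlm], ?_⟩
    rw [Nat.mem_primeFactors]
    exact ⟨hpp, Int.natCast_dvd.1 hd, Int.natAbs_ne_zero.2 (hD l m hlm)⟩
  have h1 := (card_le_card hsub).trans card_biUnion_le
  have h2 : (R.card : ℝ) ≤ ∑ x ∈ univ.filter (fun x : Fin s × Fin s => x.1 ≠ x.2),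
      (((D x.1 x.2).natAbs.primeFactors.card : ℕ) : ℝ) := by
    exact_mod_cast h1
  have h3 : ∑ x ∈ univ.filter (fun x : Fin s × Fin s => x.1 ≠ x.2),
      (((D x.1 x.2).natAbs.primeFactors.card : ℕ) : ℝ)
      ≤ ∑ x ∈ univ.filter (fun x : Fin s × Fin s => x.1 ≠ x.2), 2 * Real.log M := by
    refine sum_le_sum fun x hx => ?_
    have hne := (mem_filter.1 hx).2
    have h0 : (D x.1 x.2).natAbs ≠ 0 := Int.natAbs_ne_zero.2 (hD _ _ hne)
    refine (card_pf_le h0).trans ?_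
    have h4 : (((D x.1 x.2).natAbs : ℕ) : ℝ) ≤ M := by
      rw [Nat.cast_natAbs, Int.cast_abs]
      exact hDM _ _
    have h5 : (0 : ℝ) < (((D x.1 x.2).natAbs : ℕ) : ℝ) := by
      exact_mod_cast Nat.pos_of_ne_zero h0
    have := Real.log_le_log h5 h4
    linarith
  have h4 : ∑ x ∈ univ.filter (fun x : Fin s × Fin s => x.1 ≠ x.2), 2 * Real.log M
      ≤ (s : ℝ) ^ 2 * (2 * Real.log M) := by
    rw [sum_const, nsmul_eq_mul]
    refine mul_le_mul_of_nonneg_right ?_ (by positivity)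
    have h5 := card_filter_le (univ : Finset (Fin s × Fin s)) (fun x => x.1 ≠ x.2)
    rw [card_univ, Fintype.card_prod, Fintype.card_fin] at h5
    have h6 : ((univ.filter (fun x : Fin s × Fin s => x.1 ≠ x.2)).card : ℝ) ≤ ((s * s : ℕ) : ℝ) := by
      exact_mod_cast h5
    rw [sq]
    exact_mod_cast h6
  have h5 : (R.card : ℝ) ≤ (s : ℝ) ^ 2 * (2 * Real.log M) := (h2.trans h3).trans h4
  nlinarith [sq_nonneg (s : ℝ)]

end Pool.Agent.Q160.MS
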