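import Pool.Agent.Q152.MS.Stm
import Pool.Agent.Q117.LF.Vup
import Pool.Agent.Q160.MS.VUNA

/-!
# Project MS, job VUN: the sieve product of a system of linear forms with small resultants
-/

set_option autoImplicit false

namespace Pool.Agent.Q160.MS

open Finset Pool.Agent.Q117.LF

theorem vun : Pool.Agent.Q152.MS.St_VUN := by
  classical
  intro s a0
  obtain ⟨c, hc, hm⟩ := VUPJ.mertU
  refine ⟨(2 ^ s) ^ (a0 + 1) * (2 * s ^ 2 + 1) ^ s * c ^ s, by positivity, ?_⟩
  intro A be hA hdet M hM hDM y hy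
  have hL : 0 ≤ Real.log M := Real.log_nonneg hM
  -- the exceptional primes
  obtain ⟨R, hRdef⟩ : ∃ R : Finset ℕ, R = ((Icc 1 y).filter Nat.Prime).filter
    (fun p : ℕ => ∃ l m, l ≠ m ∧ (p : ℤ) ∣ (A l : ℤ) * be m - A m * be l) := ⟨_, rfl⟩
  have hRc : (R.card : ℝ) + 1 ≤ (2 * s ^ 2 + 1) * (Real.log M + 1) := by
    refine card_res_le (fun l m => (A l : ℤ) * be m - A m * be l)
      (fun l m h => sub_ne_zero.2 (hdet l m h)) M hM hDM R fun p hp => ?_
    rw [hRdef, mem_filter, mem_filter] at hp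
    exact ⟨hp.1.2, hp.2⟩
  have hR2 : ∀ x ∈ R, 2 ≤ x := by
    intro x hx
    rw [hRdef, mem_filter, mem_filter] at hx
    exact hx.1.2.two_le
  have hbig : ∀ p : ℕ, p.Prime → p ≤ y → a0 < p → p ∉ R → s ≤ om A be p := by
    intro p hp hpy hPp hpR
    refine SSYJ.le_om A be p hp ?_ ?_
    · intro l hd
      have h1 := Nat.le_of_dvd (hA l).1 hd
      have h2 := (hA l).2
      omega
    · intro l m hlm hd
      apply hpR
      rw [hRdef, mem_filter, mem_filter, mem_Icc]
      exact ⟨⟨⟨hp.one_lt.le, hpy⟩, hp⟩, l, m, hlm, hd⟩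
  have hfac : ∀ p ∈ (Icc 1 y).filter Nat.Prime, (1 : ℝ) - (om A be p : ℝ) / p ≤
      ((if p ≤ a0 then (2 : ℝ) ^ s else 1) * (if p ∈ R then ((1 - 1 / (p : ℝ))⁻¹) ^ s else 1)) *
        (1 - 1 / (p : ℝ)) ^ s := by
    intro p hp
    have hp' := (mem_filter.1 hp).2
    have hpy := (mem_Icc.1 (mem_filter.1 hp).1).2
    have hp2 : (2 : ℝ) ≤ p := by exact_mod_cast hp'.two_le
    have hp0 : (0 : ℝ) < p := by linarith
    have h1 : 1 / (p : ℝ) ≤ 1 / 2 := one_div_le_one_div_of_le (by norm_num) hp2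
    have h10 : 0 < 1 / (p : ℝ) := by positivity
    have h0 : (0 : ℝ) ≤ (om A be p : ℝ) / p := by positivity
    have hpos : 0 < 1 - 1 / (p : ℝ) := by linarith
    have hinv : 1 ≤ (1 - 1 / (p : ℝ))⁻¹ := (one_le_inv₀ hpos).2 (by linarith)
    have hA1 : (1 : ℝ) ≤ (if p ≤ a0 then (2 : ℝ) ^ s else 1) := by
      split_ifs
      · exact one_le_pow₀ (by norm_num)
      · exact le_rfl
    have hB1 : (1 : ℝ) ≤ (if p ∈ R then ((1 - 1 / (p : ℝ))⁻¹) ^ s else 1) := by
      split_ifs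
      · exact one_le_pow₀ hinv
      · exact le_rfl
    by_cases hR : p ∈ R
    · rw [if_pos hR, mul_assoc, ← mul_pow, inv_mul_cancel₀ hpos.ne', one_pow, mul_one]
      linarith
    · rw [if_neg hR, mul_one]
      by_cases h : p ≤ a0
      · rw [if_pos h]
        have h2 : (1 : ℝ) ≤ (2 * (1 - 1 / (p : ℝ))) ^ s := one_le_pow₀ (by linarith)
        rw [mul_pow] at h2
        linarith
      · rw [if_neg h, one_mul]
        have h2 := hbig p hp' hpy (not_le.1 h) hR
        have h3 : (s : ℝ) / p ≤ (om A be p : ℝ) / p := by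
          have : (s : ℝ) ≤ (om A be p : ℝ) := by exact_mod_cast h2
          gcongr
        have h4 := one_add_mul_le_pow (a := -(1 / (p : ℝ))) (by linarith) s
        have h5 : (1 : ℝ) + s * (-(1 / (p : ℝ))) = 1 - (s : ℝ) / p := by ring
        have h6 : (1 : ℝ) + -(1 / (p : ℝ)) = 1 - 1 / (p : ℝ) := by ring
        rw [h5, h6] at h4
        linarith
  have hnn : ∀ p ∈ (Icc 1 y).filter Nat.Prime, (0 : ℝ) ≤ 1 - (om A be p : ℝ) / p := by
    intro p hp
    have hp' := (mem_filter.1 hp).2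
    have hp0 : (0 : ℝ) < p := by exact_mod_cast hp'.pos
    have h1 : (om A be p : ℝ) ≤ p := by exact_mod_cast SSYJ.om_le A be p
    have h2 : (om A be p : ℝ) / p ≤ 1 := by rw [div_le_one hp0]; exact h1
    linarith
  have h1 : VN y A be ≤ ∏ p ∈ (Icc 1 y).filter Nat.Prime,
      (((if p ≤ a0 then (2 : ℝ) ^ s else 1) * (if p ∈ R then ((1 - 1 / (p : ℝ))⁻¹) ^ s else 1)) *
        (1 - 1 / (p : ℝ)) ^ s) := by
    unfold VN
    exact Finset.prod_le_prod hnn hfac
  rw [Finset.prod_mul_distrib, Finset.prod_mul_distrib, Finset.prod_pow] at h1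
  have h2 : ∏ p ∈ (Icc 1 y).filter Nat.Prime, (if p ≤ a0 then (2 : ℝ) ^ s else 1) ≤
      (2 ^ s) ^ (a0 + 1) := by
    rw [← Finset.prod_filter, Finset.prod_const]
    refine pow_le_pow_right₀ (one_le_pow₀ (by norm_num)) ?_
    have h3 : ((Icc 1 y).filter Nat.Prime).filter (fun p => p ≤ a0) ⊆ range (a0 + 1) := by
      intro p hp
      rw [mem_range]
      have := (mem_filter.1 hp).2
      omega
    have := card_le_card h3
    rwa [card_range] at this
  have h2' : ∏ p ∈ (Icc 1 y).filter Nat.Prime,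
      (if p ∈ R then ((1 - 1 / (p : ℝ))⁻¹) ^ s else 1) ≤
      ((2 * s ^ 2 + 1) * (Real.log M + 1)) ^ s := by
    rw [← Finset.prod_filter]
    have hRe : ((Icc 1 y).filter Nat.Prime).filter (fun p => p ∈ R) = R := by
      ext p
      rw [mem_filter]
      constructor
      · exact fun h => h.2
      · intro h
        refine ⟨?_, h⟩
        rw [hRdef, mem_filter] at h
        exact h.1
    rw [hRe, Finset.prod_pow]
    refine pow_le_pow_left₀ ?_ ((prod_inv_le R hR2).trans hRc) s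
    apply prod_nonneg
    intro p hp
    have hp2 : (2 : ℝ) ≤ p := by exact_mod_cast hR2 p hp
    have h6 : 1 / (p : ℝ) ≤ 1 / 2 := one_div_le_one_div_of_le (by norm_num) hp2
    exact inv_nonneg.2 (by linarith)
  have h3 : 0 ≤ ∏ p ∈ (Icc 1 y).filter Nat.Prime, (1 - 1 / (p : ℝ)) := by
    apply Finset.prod_nonneg
    intro p hp
    have hp2 : (2 : ℝ) ≤ p := by exact_mod_cast (mem_filter.1 hp).2.two_le
    have h4 : 1 / (p : ℝ) ≤ 1 / 2 := one_div_le_one_div_of_le (by norm_num) hp2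
    linarith
  have h5 : 0 ≤ ∏ p ∈ (Icc 1 y).filter Nat.Prime,
      (if p ∈ R then ((1 - 1 / (p : ℝ))⁻¹) ^ s else 1) := by
    apply Finset.prod_nonneg
    intro p hp
    split_ifs with h
    · have hp2 : (2 : ℝ) ≤ p := by exact_mod_cast hR2 p h
      have h6 : 1 / (p : ℝ) ≤ 1 / 2 := one_div_le_one_div_of_le (by norm_num) hp2
      exact pow_nonneg (inv_nonneg.2 (by linarith)) s
    · norm_num
  calc VN y A be ≤ _ := h1
    _ ≤ ((2 ^ s) ^ (a0 + 1) * ((2 * s ^ 2 + 1) * (Real.log M + 1)) ^ s) *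
          (c / Real.log y) ^ s := by
        refine mul_le_mul (mul_le_mul h2 h2' h5 (by positivity))
          (pow_le_pow_left₀ h3 (hm y hy) s) (pow_nonneg h3 s) (by positivity)
    _ = (2 ^ s) ^ (a0 + 1) * (2 * s ^ 2 + 1) ^ s * c ^ s * (Real.log M + 1) ^ s /
          Real.log y ^ s := by
        rw [div_pow, mul_pow]
        ring

end Pool.Agent.Q160.MS
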